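import Pool.Agent.Helper45.PD.Defs2
import Pool.Agent.Helper45.TW.Defs
import Mathlib.GroupTheory.Frattini

/-!
# Project PL (MP_e66f84_ag): the pro-`ℓ` tower over the twists of a cyclic cover of degree `ℓ`

Block statements.  `k` a number field which contains the `ℓ`-th roots of unity, `Y` a curve over `k`
with function field `K0`, `X : r ^ ℓ = h`, `U` the maximal unramified extension of
`M = MM E K0 r = E K0 (r)`.  A level is an intermediate field `M ≤ N ≤ U`, a function field, stable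
under the automorphisms `Au E K0` (`TW.Lvl`).
-/

set_option autoImplicit false

namespace Pool.Agent.PRL

open VC IntermediateField NumberField IsDedekindDomain Pool.Agent.SC Pool.Agent.Helper91.Sect
open Filter Topology
open Pool.Agent.L (L0 MM)
open Pool.Agent.LN (Geo Act GoodCurve)
open Pool.Agent.M (Moves OverPl inL0)
open Pool.Agent.ML (HasMu BPl)
open Pool.Agent.TOW (Au AuE)
open Pool.Agent.PDL (HypL YL PoleAt IsRatBr IsBr numBr Third KB2)

noncomputable section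

/-! ## Groups -/

/-- BLOCK B1 (Burnside): an automorphism of a finite `ℓ`-group which is trivial on the Frattini
quotient has order a power of `ℓ`. -/
def StmtBURN : Prop :=
  ∀ (H : Type) [Group H] [Finite H] (ℓ : ℕ), ℓ.Prime → IsPGroup ℓ H → ∀ φ : H ≃* H,
    (∀ h : H, φ h * h⁻¹ ∈ frattini H) → ∃ j : ℕ, φ ^ (ℓ ^ j) = 1

/-- `T` induces on `E` an element of `S` -/
def InS {k E U : Type} [Field k] [Field E] [Field U] [Algebra k E] [Algebra E U]
    (S : Subgroup (E ≃ₐ[k] E)) (T : U ≃+* U) : Prop :=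
  ∃ σ ∈ S, ∀ e : E, T (algebraMap E U e) = algebraMap E U (σ e)

/-- `S` is normal and the group generated by `S` and some element has index prime to `ℓ`
(so the `ℓ`-Sylow subgroup of the quotient is cyclic) -/
structure SylC {k E : Type} [Field k] [Field E] [Algebra k E] (ℓ : ℕ)
    (S : Subgroup (E ≃ₐ[k] E)) : Prop where
  normal : S.Normal
  syl : ∃ σ₀ : E ≃ₐ[k] E, ¬ ℓ ∣ (S ⊔ Subgroup.zpowers σ₀).index

/-- the group of `N` over `L0` is an `ℓ`-group -/
def IsPL (E K0 : Type) {U : Type} [Field E] [Field K0] [Field U] [Algebra E U] [Algebra K0 U]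
    (ℓ : ℕ) (N : IntermediateField E U) : Prop :=
  ∀ a : U ≃+* U, AuE E K0 a → ∃ j : ℕ, ∀ z ∈ N, (a ^ (ℓ ^ j)) z = z

/-- conjugation by the automorphisms which induce elements of `S` on `E` has order a power of `ℓ` on
the group of `N` over `L0` -/
def UniP {k : Type} (K0 : Type) {E U : Type} [Field k] [Field K0] [Field E] [Field U]
    [Algebra k E] [Algebra E U] [Algebra K0 U] (ℓ : ℕ) (S : Subgroup (E ≃ₐ[k] E))
    (N : IntermediateField E U) : Prop :=
  ∀ T : U ≃+* U, Au E K0 T → InS S T → ∃ j : ℕ, ∀ a : U ≃+* U, AuE E K0 a →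
    ∀ z ∈ N, (T ^ (ℓ ^ j)) (a z) = a ((T ^ (ℓ ^ j)) z)

/-! ## General levels -/

/-- BLOCK B3 (as `TOW.StmtPX1`, for any level and any prime `ℓ`). -/
def StmtPXL : Prop :=
  ∀ (k K0 E U : Type) [Field k] [NumberField k] [Field K0] [Field E] [Field U] [Algebra k K0]
    [Algebra k E] [Algebra E U] [Algebra K0 U] [Algebra k U] [IsScalarTower k E U]
    [IsScalarTower k K0 U] (ℓ : ℕ) (h : K0) (r : U), ℓ.Prime → Geo k K0 E U ℓ h r →
    ∀ N : IntermediateField E U, TW.Lvl E K0 N → MM E K0 r ≤ N →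
    -- an automorphism over `M` which fixes a place of `N` is trivial on `N`
    (∀ (T : U ≃+* U) (Q : Place E N), AuE E K0 T → T r = r → Moves T N Q Q → ∀ z ∈ N, T z = z) ∧
    ∀ b : Place E (L0 E K0 (U := U)), BPl ℓ h b →
      (∃ Q : Place E N, OverPl b Q) ∧ {Q : Place E N | OverPl b Q}.Finite ∧
      (∀ Q Q' : Place E N, OverPl b Q → OverPl b Q' →
        ∃ a : U ≃+* U, AuE E K0 a ∧ a r = r ∧ Moves a N Q Q') ∧
      -- inertia
      ∀ Q : Place E N, OverPl b Q → ∃ (ι : U ≃+* U) (ζ : E), AuE E K0 ι ∧ IsPrimitiveRoot ζ ℓ ∧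
        ι r = algebraMap E U ζ * r ∧ Moves ι N Q Q

/-- BLOCK B4 (chain; from B3, Artin, fixed points of `ℓ`-groups): between a level `B` and a larger
`ℓ`-level `N` there is a level `N₁ ≠ N` such that the group of `N / N₁` has exponent `ℓ` and commutes
with the automorphisms over `L0` and with those which induce elements of `S` on `E`
(`N₁` = the fixed field of these elements of the group of `N / B`). -/
def StmtCHAIN : Prop :=
  ∀ (k K0 E U : Type) [Field k] [NumberField k] [Field K0] [Field E] [Field U] [Algebra k K0]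
    [Algebra k E] [Algebra E U] [Algebra K0 U] [Algebra k U] [IsScalarTower k E U]
    [IsScalarTower k K0 U] (ℓ : ℕ) (h : K0) (r : U), ℓ.Prime → Geo k K0 E U ℓ h r →
    ∀ S : Subgroup (E ≃ₐ[k] E), S.Normal →
    ∀ B N : IntermediateField E U, TW.Lvl E K0 B → MM E K0 r ≤ B → TW.Lvl E K0 N → B ≤ N →
    B ≠ N → IsPL E K0 ℓ N → UniP K0 ℓ S N →
    ∃ N₁ : IntermediateField E U, TW.Lvl E K0 N₁ ∧ B ≤ N₁ ∧ N₁ ≤ N ∧ N₁ ≠ N ∧
      ∀ z : U ≃+* U, AuE E K0 z → (∀ y ∈ N₁, z y = y) →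
        (∀ y ∈ N, (z ^ ℓ) y = y) ∧
        (∀ a : U ≃+* U, AuE E K0 a → ∀ y ∈ N, z (a y) = a (z y)) ∧
        ∀ T : U ≃+* U, Au E K0 T → InS S T → ∀ y ∈ N, T (z y) = z (T y)

/-- BLOCK B5 (from B3): a common fixed place. -/
def StmtCOMS : Prop :=
  ∀ (k K0 E U : Type) [Field k] [NumberField k] [Field K0] [Field E] [Field U] [Algebra k K0]
    [Algebra k E] [Algebra E U] [Algebra K0 U] [Algebra k U] [IsScalarTower k E U]
    [IsScalarTower k K0 U] (ℓ : ℕ) (h : K0) (r : U), ℓ.Prime → HasMu k ℓ → Geo k K0 E U ℓ h r →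
    ∀ S : Subgroup (E ≃ₐ[k] E), SylC ℓ S → ∀ N : IntermediateField E U, TW.Lvl E K0 N →
    MM E K0 r ≤ N →
    (∀ a b : U ≃+* U, AuE E K0 a → AuE E K0 b → ∀ z ∈ N, a (b z) = b (a z)) →
    (∀ a : U ≃+* U, AuE E K0 a → ∀ z ∈ N, (a ^ ℓ) z = z) →
    (∀ T a : U ≃+* U, Au E K0 T → InS S T → AuE E K0 a → a r = r → ∀ z ∈ N, T (a z) = a (T z)) →
    ∀ b : Place E (L0 E K0 (U := U)), BPl ℓ h b →
    ∀ (c : k) (Φ : (E ≃ₐ[k] E) →* (U ≃+* U)), c ≠ 0 → Act (K0 := K0) ℓ r c Φ →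
    (∀ σ : E ≃ₐ[k] E, ∃ Q : Place E N, OverPl b Q ∧ Moves (Φ σ) N Q Q) →
    ∃ Q : Place E N, OverPl b Q ∧ ∀ g : E ≃ₐ[k] E, Moves (Φ g) N Q Q

section kp

variable (k K0 : Type) {E U : Type} [Field k] [Field K0] [Field E] [Field U] [Algebra k K0]
  [Algebra k E] [Algebra E U] [Algebra K0 U] [Algebra k U] [IsScalarTower k E U]
  [IsScalarTower k K0 U]

/-- the elements of `N` fixed by the stabiliser of the place `Q` -/
def KP {N : IntermediateField E U} (Q : Place E N) : IntermediateField k U where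
  carrier := {z | z ∈ N ∧ ∀ T : U ≃+* U, Au E K0 T → Moves T N Q Q → T z = z}
  mul_mem' := fun {a b} ha hb => ⟨mul_mem ha.1 hb.1, fun T hT hm => by
    rw [map_mul, ha.2 T hT hm, hb.2 T hT hm]⟩
  add_mem' := fun {a b} ha hb => ⟨add_mem ha.1 hb.1, fun T hT hm => by
    rw [map_add, ha.2 T hT hm, hb.2 T hT hm]⟩
  algebraMap_mem' := fun a => ⟨by
    rw [IsScalarTower.algebraMap_apply k E U]
    exact N.algebraMap_mem _, fun T hT _ => by
    rw [IsScalarTower.algebraMap_apply k K0 U]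
    exact hT.fixK _⟩
  inv_mem' := fun a ha => ⟨inv_mem ha.1, fun T hT hm => by rw [map_inv₀, ha.2 T hT hm]⟩

end kp

/-- BLOCK B6 (from B3; model `TOW.kG`): the field `KP Q` gives again a cyclic cover, with the same
`h`, `r`, `U`, and `MM = N`. -/
def StmtKGL : Prop :=
  ∀ (k K0 E U : Type) [Field k] [NumberField k] [Field K0] [Field E] [Field U] [Algebra k K0]
    [Algebra k E] [Algebra E U] [Algebra K0 U] [Algebra k U] [IsScalarTower k E U]
    [IsScalarTower k K0 U] (ℓ : ℕ) (h : K0) (r : U), ℓ.Prime → HasMu k ℓ → Geo k K0 E U ℓ h r →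
    ∀ N : IntermediateField E U, TW.Lvl E K0 N → MM E K0 r ≤ N →
    ∀ (b₀ : Place E (L0 E K0 (U := U))) (Q : Place E N), BPl ℓ h b₀ → OverPl b₀ Q →
    ∀ (c₀ : k) (Φ₀ : (E ≃ₐ[k] E) →* (U ≃+* U)), c₀ ≠ 0 → Act (K0 := K0) ℓ r c₀ Φ₀ →
    (∀ g : E ≃ₐ[k] E, Moves (Φ₀ g) N Q Q) →
    (∀ x : K0, algebraMap K0 U x ∈ KP k K0 Q) ∧
    ∀ h' : KP k K0 Q, (h' : U) = algebraMap K0 U h →
      Geo k (KP k K0 Q) E U ℓ h' r ∧ MM E (KP k K0 Q) r = N ∧
      (∀ T : U ≃+* U, AuE E K0 T → Moves T N Q Q → ∀ z ∈ L0 E (KP k K0 Q) (U := U), T z = z) ∧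
      ∃ b₁ : Place E (L0 E (KP k K0 Q) (U := U)), BPl ℓ h' b₁ ∧ OverPl b₁ Q ∧
        ∀ Q' : Place E N, OverPl b₁ Q' → Q' = Q

/-- BLOCK B7 (from B3, B6): the set of the rational branch places of `KP Q`.  `B ≤ N` is a level,
abelian over `L0`, with at least four places over every branch place.  (The branch places of `KP Q`
above `b₀` are the places of `N` above `b₀` fixed by the inertia group of `Q`; their number is
divisible by `ℓ` and at least the number of places of `B` above `b₀`.) -/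
def StmtRSK : Prop :=
  ∀ (k K0 E U : Type) [Field k] [NumberField k] [Field K0] [Field E] [Field U] [Algebra k K0]
    [Algebra k E] [Algebra E U] [Algebra K0 U] [Algebra k U] [IsScalarTower k E U]
    [IsScalarTower k K0 U] (ℓ : ℕ) (h : K0) (r : U), ℓ.Prime → ℓ ≠ 2 → HasMu k ℓ →
    Geo k K0 E U ℓ h r →
    ∀ B N : IntermediateField E U, TW.Lvl E K0 B → MM E K0 r ≤ B →
    (∀ a b : U ≃+* U, AuE E K0 a → AuE E K0 b → ∀ z ∈ B, a (b z) = b (a z)) →
    (∀ b : Place E (L0 E K0 (U := U)), BPl ℓ h b →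
      4 ≤ Nat.card {Q : Place E B // OverPl b Q}) →
    TW.Lvl E K0 N → B ≤ N → IsPL E K0 ℓ N →
    ∀ (b₀ : Place E (L0 E K0 (U := U))) (Q : Place E N), BPl ℓ h b₀ → OverPl b₀ Q →
    ∀ (c₀ : k) (Φ₀ : (E ≃ₐ[k] E) →* (U ≃+* U)), c₀ ≠ 0 → Act (K0 := K0) ℓ r c₀ Φ₀ →
    (∀ g : E ≃ₐ[k] E, Moves (Φ₀ g) N Q Q) →
    ∀ h' : KP k K0 Q, (h' : U) = algebraMap K0 U h →
    ∃ R' : Finset (Place E (L0 E (KP k K0 Q) (U := U))), PD.RatSet (k := k) ℓ h' r R' ∧
      ∀ b' ∈ R', ∃ b : Place E (L0 E K0 (U := U)), BPl ℓ h b ∧ OverPl b b'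

/-- some action has no common fixed place of `N` above a branch place -/
def NoFix {k K0 E U : Type} [Field k] [Field K0] [Field E] [Field U] [Algebra k K0]
    [Algebra k E] [Algebra E U] [Algebra K0 U] (ℓ : ℕ) (h : K0) (r : U)
    (N : IntermediateField E U) (c : k) : Prop :=
  ∃ Φ : (E ≃ₐ[k] E) →* (U ≃+* U), Act (K0 := K0) ℓ r c Φ ∧
    ¬ ∃ b : Place E (L0 E K0 (U := U)), BPl ℓ h b ∧ ∃ Q : Place E N, OverPl b Q ∧
      ∀ g : E ≃ₐ[k] E, Moves (Φ g) N Q Q

/-- BLOCK B8 (induction; helper45; from `PD.StmtLVL`, B3, B4, B5, B6, B7): THE GENERAL THEOREM. -/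
def StmtPL : Prop :=
  ∀ (k K0 E U : Type) [Field k] [NumberField k] [Field K0] [Field E] [Field U] [Algebra k K0]
    [Algebra k E] [Algebra E U] [Algebra K0 U] [Algebra k U] [IsScalarTower k E U]
    [IsScalarTower k K0 U] (ℓ : ℕ) (h : K0) (r : U), ℓ.Prime → ℓ ≠ 2 → HasMu k ℓ →
    Geo k K0 E U ℓ h r →
    ∀ B : IntermediateField E U, TW.Lvl E K0 B → MM E K0 r ≤ B →
    (∀ a b : U ≃+* U, AuE E K0 a → AuE E K0 b → ∀ z ∈ B, a (b z) = b (a z)) →
    (∀ b : Place E (L0 E K0 (U := U)), BPl ℓ h b →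
      4 ≤ Nat.card {Q : Place E B // OverPl b Q}) →
    PD.Rare ℓ (NoFix (k := k) ℓ h r B) →
    ∀ S : Subgroup (E ≃ₐ[k] E), SylC ℓ S →
    ∀ N : IntermediateField E U, TW.Lvl E K0 N → B ≤ N → IsPL E K0 ℓ N → UniP K0 ℓ S N →
    PD.Rare ℓ (NoFix (k := k) ℓ h r N)

/-- BLOCK B2 (from B1): `UniP` from the abelian level of exponent `ℓ`. -/
def StmtUNI : Prop :=
  ∀ (k K0 E U : Type) [Field k] [NumberField k] [Field K0] [Field E] [Field U] [Algebra k K0]
    [Algebra k E] [Algebra E U] [Algebra K0 U] [Algebra k U] [IsScalarTower k E U]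
    [IsScalarTower k K0 U] (ℓ : ℕ) (h : K0) (r : U), ℓ.Prime → Geo k K0 E U ℓ h r →
    ∀ S : Subgroup (E ≃ₐ[k] E), UniP K0 ℓ S (YL E K0 ℓ (U := U)) →
    ∀ N : IntermediateField E U, TW.Lvl E K0 N → MM E K0 r ≤ N → IsPL E K0 ℓ N → UniP K0 ℓ S N

/-! ## The tower -/

/-- the tower over `M`: `TT 0 = M`, `TT (m + 1)` is generated by the `ℓ`-th roots, in `U`, of the
elements of `TT m` -/
def TT (E K0 : Type) {U : Type} [Field E] [Field K0] [Field U] [Algebra E U] [Algebra K0 U]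
    (r : U) (ℓ : ℕ) : ℕ → IntermediateField E U
  | 0 => MM E K0 r
  | m + 1 => IntermediateField.adjoin E ((TT E K0 r ℓ m : Set U) ∪ {w | w ^ ℓ ∈ TT E K0 r ℓ m})

/-- BLOCK B9 (from `StmtFT`, model `TOW.fGL59`, `TOW.ff59`): the tower consists of levels, and of
`ℓ`-extensions of `L0`. -/
def StmtTOWU : Prop :=
  ∀ (k K0 E U : Type) [Field k] [NumberField k] [Field K0] [Field E] [Field U] [Algebra k K0]
    [Algebra k E] [Algebra E U] [Algebra K0 U] [Algebra k U] [IsScalarTower k E U]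
    [IsScalarTower k K0 U] (ℓ : ℕ) (h : K0) (r : U), ℓ.Prime → Geo k K0 E U ℓ h r → ∀ m : ℕ,
    TW.Lvl E K0 (TT E K0 r ℓ m) ∧ MM E K0 r ≤ TT E K0 r ℓ m ∧ IsPL E K0 ℓ (TT E K0 r ℓ m)

/-! ## The line -/

/-- the automorphisms which fix the branch points of `y ^ ℓ = f(x)` -/
def brS (k E : Type) [Field k] [Field E] [Algebra k E] (ℓ : ℕ) (f : Polynomial k) :
    Subgroup (E ≃ₐ[k] E) where
  carrier := {σ | ∀ β : E, IsBr ℓ f β → σ β = β}
  mul_mem' := fun {a b} ha hb β h => by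
    show a (b β) = β
    rw [hb β h, ha β h]
  one_mem' := fun _ _ => rfl
  inv_mem' := fun {a} ha β h => by
    show a.symm β = β
    rw [AlgEquiv.symm_apply_eq, ha β h]

/-- The Galois group of the branch points has a normal `ℓ`-subgroup such that the `ℓ`-Sylow subgroup
of the quotient is cyclic: there is a normal subgroup `S` of the absolute Galois group, whose elements
act on the branch points with order a power of `ℓ`, and an element `σ₀` such that `ℓ` does not divide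
the index of the group generated by `S` and `σ₀`. -/
def CycS (k E : Type) [Field k] [Field E] [Algebra k E] (ℓ : ℕ) (f : Polynomial k) : Prop :=
  ∃ S : Subgroup (E ≃ₐ[k] E), SylC ℓ S ∧
    ∀ σ ∈ S, ∃ m : ℕ, ∀ β : E, IsBr ℓ f β → (σ ^ (ℓ ^ m)) β = β

/-- BLOCK B11: `CycS` holds if there are fewer than `2 ℓ` branch points (`S = brS`); it does not
depend on the algebraic closure. -/
def StmtSYL : Prop :=
  ∀ (k E : Type) [Field k] [NumberField k] [Field E] [IsAlgClosed E] [Algebra k E]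
    [Algebra.IsAlgebraic k E] (ℓ : ℕ) (f : Polynomial k), ℓ.Prime → f ≠ 0 →
    (CycS k (AlgebraicClosure k) ℓ f → CycS k E ℓ f) ∧
    (Nat.card {θ : E // IsBr ℓ f θ} < 2 * ℓ → CycS k E ℓ f)

/-- BLOCK B13 (helper45): the automorphisms which fix the branch points commute with the group of
`YL` over `L0`; so `UniP` for `YL`. -/
def StmtUNL : Prop :=
  ∀ (k K0 E U : Type) [Field k] [NumberField k] [Field K0] [Field E] [Field U] [Algebra k K0]
    [Algebra k E] [Algebra E U] [Algebra K0 U] [Algebra k U] [IsScalarTower k E U]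
    [IsScalarTower k K0 U] (ℓ : ℕ) (x : K0) (f : Polynomial k) (r : U), ℓ.Prime → HasMu k ℓ →
    HypL E ℓ x f r → (∃ u : K0, IsRatBr ℓ x f u) → ∀ S : Subgroup (E ≃ₐ[k] E),
    (∀ σ ∈ S, ∃ m : ℕ, ∀ β : E, IsBr ℓ f β → (σ ^ (ℓ ^ m)) β = β) →
    UniP K0 ℓ S (YL E K0 ℓ (U := U))

/-- BLOCK B15 (helper45): the number of the places of `YL` above a branch place. -/
def StmtCNT : Prop :=
  ∀ (k K0 E U : Type) [Field k] [NumberField k] [Field K0] [Field E] [Field U] [Algebra k K0]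
    [Algebra k E] [Algebra E U] [Algebra K0 U] [Algebra k U] [IsScalarTower k E U]
    [IsScalarTower k K0 U] (ℓ : ℕ) (x : K0) (f : Polynomial k) (r : U), ℓ.Prime → ℓ ≠ 2 →
    HypL E ℓ x f r → (∃ u : K0, IsRatBr ℓ x f u) → 3 ≤ numBr k E ℓ f →
    (ℓ = 3 → 4 ≤ numBr k E ℓ f) →
    ∀ b : Place E (L0 E K0 (U := U)), BPl ℓ (Polynomial.aeval x f) b →
      4 ≤ Nat.card {Q : Place E (YL E K0 ℓ (U := U)) // OverPl b Q}

/-- BLOCK B14 (helper45; from B2, B8, B9, B13, B15, `PDL.StmtRS`, `PDL.StmtOneA`): the theorem for the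
line. -/
def StmtOneT : Prop :=
  ∀ (k K0 E U : Type) [Field k] [NumberField k] [Field K0] [Field E] [Field U] [Algebra k K0]
    [Algebra k E] [Algebra E U] [Algebra K0 U] [Algebra k U] [IsScalarTower k E U]
    [IsScalarTower k K0 U] (ℓ : ℕ) (x : K0) (f : Polynomial k) (r : U), ℓ.Prime → ℓ ≠ 2 →
    HasMu k ℓ → HypL E ℓ x f r → (∃ u : K0, IsRatBr ℓ x f u) → 3 ≤ numBr k E ℓ f →
    (ℓ = 3 → 4 ≤ numBr k E ℓ f) → Third k E ℓ f → CycS k E ℓ f → ∀ m : ℕ,
    PD.Rare ℓ (fun c : k => ∃ Φ : (E ≃ₐ[k] E) →* (U ≃+* U), Act (K0 := K0) ℓ r c Φ ∧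
      ¬ ∃ u : K0, IsRatBr ℓ x f u ∧ ∃ Q : Place E (TT E K0 r ℓ m), PoleAt u Q ∧
        ∀ g : E ≃ₐ[k] E, Moves (Φ g) _ Q Q)

/-! ## The absolute form -/

section abs

variable (k : Type) {K : Type} [Field k] [Field K] [Algebra k K]

/-- `w` is an `ℓ`-th root of an element of the field `M` whose divisor is divisible by `ℓ` -/
def RtM (ℓ : ℕ) (M : Subfield (AlgebraicClosure K)) (w : AlgebraicClosure K) : Prop :=
  ∃ u : M, (u : AlgebraicClosure K) = w ^ ℓ ∧ ∀ P : ValuationSubring M,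
    (∀ z : M, IsAlgebraic k (z : AlgebraicClosure K) → z ∈ P) →
    ∃ z : M, P.valuation u = P.valuation z ^ ℓ

/-- The tower over `kbar(x, y)`: `TB (m + 1)` is the maximal abelian unramified extension of exponent
`ℓ` of `TB m`. -/
def TB (x y : K) (ℓ : ℕ) : ℕ → Subfield (AlgebraicClosure K)
  | 0 => KB2 k x y
  | m + 1 => Subfield.closure ((TB x y ℓ m : Set (AlgebraicClosure K)) ∪ {w | RtM k ℓ (TB x y ℓ m) w})

end abs

/-- The section `s` of `K ∋ x, y` fixes a place of `TB m` at which `u` has a pole. -/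
def AgrT {k K : Type} [Field k] [Field K] [Algebra k K] (s : GaloisSection k K) (x y : K)
    (ℓ m : ℕ) (u : K) : Prop :=
  ∃ Q : ValuationSubring (AlgebraicClosure K), (∀ z, IsAlgebraic k z → z ∈ Q) ∧
    algebraMap K (AlgebraicClosure K) u ∉ Q ∧
    ∀ w ∈ TB k x y ℓ m, ∃ hw : w ∈ Kur k K, ∀ g : Gk k K,
      (w ∈ Q ↔ (s.toHom g ⟨w, hw⟩ : AlgebraicClosure K) ∈ Q)

/-- BLOCK B10: the transfer (as `PDL.StmtTRL`, model `PDL.tRL`). -/
def StmtTRT : Prop :=
  ∀ (k : Type) [Field k] [NumberField k] (ℓ : ℕ) (f : Polynomial k), ℓ.Prime →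
    GoodCurve k ℓ (algebraMap (Polynomial k) (FractionRing (Polynomial k)) f) →
    ∃ (E U : Type) (_ : Field E) (_ : Field U) (_ : Algebra k E) (_ : Algebra E U)
      (_ : Algebra (FractionRing (Polynomial k)) U) (_ : Algebra k U) (_ : IsScalarTower k E U)
      (_ : IsScalarTower k (FractionRing (Polynomial k)) U) (r : U),
      HypL E ℓ (algebraMap (Polynomial k) (FractionRing (Polynomial k)) Polynomial.X) f r ∧
      ∀ c : k, c ≠ 0 → ∀ (K : Type) [Field K] [Algebra k K] (x y : K), Transcendental k x →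
        y ^ ℓ = algebraMap k K c * Polynomial.aeval x f → ∀ s : GaloisSection k K,
        ∃ Φ : (E ≃ₐ[k] E) →* (U ≃+* U), Act (K0 := FractionRing (Polynomial k)) ℓ r c Φ ∧
          ∀ m : ℕ, (∀ w ∈ TB k x y ℓ m, w ∈ Kur k K) ∧
          ∀ Q : Place E (TT E (FractionRing (Polynomial k)) r ℓ m),
            (∀ g : E ≃ₐ[k] E, Moves (Φ g) _ Q Q) →
            (PoleAt (algebraMap (Polynomial k) (FractionRing (Polynomial k)) Polynomial.X) Q →
              AgrT s x y ℓ m x) ∧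
            ∀ α : k, PoleAt (algebraMap (Polynomial k) (FractionRing (Polynomial k)) Polynomial.X -
              algebraMap k (FractionRing (Polynomial k)) α)⁻¹ Q →
              AgrT s x y ℓ m (x - algebraMap k K α)⁻¹

/-- Some curve over `k` which maps onto `y ^ ℓ = c f(x)` has a section which agrees on `TB m` with no
rational branch point. -/
def OthT {k : Type} [Field k] (f : Polynomial k) (ℓ m : ℕ) (c : k) : Prop :=
  ∃ (K : Type) (_ : Field K) (_ : Algebra k K) (x y : K), Transcendental k x ∧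
    y ^ ℓ = algebraMap k K c * Polynomial.aeval x f ∧ ∃ s : GaloisSection k K,
      (¬ ℓ ∣ f.natDegree → ¬ AgrT s x y ℓ m x) ∧
      ∀ α : k, ¬ ℓ ∣ f.rootMultiplicity α → ¬ AgrT s x y ℓ m (x - algebraMap k K α)⁻¹

/-- BLOCK B12 (from `StmtOneT`, `StmtTRT`, `ML.StmtFinA` ..., as `PDL.finA_one`). -/
def StmtFinT : Prop :=
  ∀ (k : Type) [Field k] [NumberField k] (ℓ : ℕ) (f : Polynomial k), ℓ.Prime → ℓ ≠ 2 →
    HasMu k ℓ → 3 ≤ numBr k (AlgebraicClosure k) ℓ f →
    (ℓ = 3 → 4 ≤ numBr k (AlgebraicClosure k) ℓ f) → Third k (AlgebraicClosure k) ℓ f →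
    CycS k (AlgebraicClosure k) ℓ f → ∀ m : ℕ,
    Tendsto (fun X : ℕ => (Nat.card (LN.clsP (k := k) ℓ (OthT f ℓ m) X) : ℝ) /
      Nat.card (LN.clsP (k := k) ℓ (fun _ => True) X)) atTop (𝓝 0)

end

end Pool.Agent.PRL
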