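import Pool.Agent.Helper13.PLF.Defs
import Pool.Agent.Helper28.PD.RS
import Pool.Agent.Helper45.PD.OneA
import Pool.Agent.Helper59.TW.PX1

/-!
# Project PL, block RCH, parts 2 and 3: the branch places of the line
-/

set_option autoImplicit false
set_option linter.unusedSectionVars false

namespace Pool.Agent.PRL

open VC IntermediateField NumberField IsDedekindDomain Pool.Agent.SC
open Filter Topology
open Pool.Agent.L (L0 MM)
open Pool.Agent.LN (Geo Act)
open Pool.Agent.M (Moves OverPl inL0)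
open Pool.Agent.ML (HasMu BPl)
open Pool.Agent.TOW (Au AuE)
open Pool.Agent.PDL (HypL YL PoleAt IsRatBr IsBr numBr Third gal_L0 inL0_inv_sub28 exists_pole28)

section

variable {k K0 E U : Type} [Field k] [NumberField k] [Field K0] [Field E] [Field U]
  [Algebra k K0] [Algebra k E] [Algebra E U] [Algebra K0 U] [Algebra k U] [IsScalarTower k E U]
  [IsScalarTower k K0 U] {ℓ : ℕ} {x : K0} {f : Polynomial k} {r : U}

theorem hypL' (H : HypL E ℓ x f r) : PD.HypL E ℓ x f r := ⟨H.geo, H.gen, H.tr⟩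

/-- the poles of the coordinates at the rational branch points are branch places -/
theorem pole_bpl45 (hℓ : ℓ.Prime) (H : HypL E ℓ x f r) {u : K0} (hu : IsRatBr ℓ x f u)
    {b : Place E (L0 E K0 (U := U))} (hb : inL0 u ∉ b.ring) :
    BPl ℓ (Polynomial.aeval x f) b := by
  rcases hu with ⟨rfl, hd⟩ | ⟨α, hα, rfl⟩
  · exact (PD.Line.bpl_inf hℓ (hypL' H) hb).2 hd
  · rw [inL0_inv_sub28] at hb
    have h5 : PD.Line.Vl x b (algebraMap k E α) :=
      PD.Line.Vl.of_nu ((ValuationSubring.mem_nonunits_iff_or _).2 (Or.inr hb))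
    rw [PD.Line.bpl_val hℓ (hypL' H) h5, PD.Line.mult_map]
    exact hα

/-- **BLOCK RCH, part 2.** -/
theorem rch2 (hℓ : ℓ.Prime) (H : HypL E ℓ x f r) {u : K0} (hu : IsRatBr ℓ x f u)
    {N : IntermediateField E U} (hN : L0 E K0 (U := U) ≤ N) {Q : Place E N} (hQ : PoleAt u Q) :
    ∃ b : Place E (L0 E K0 (U := U)), BPl ℓ (Polynomial.aeval x f) b ∧ OverPl b Q := by
  have : CharZero U := H.chU
  have : IsGalois (L0 E K0 (U := U)) U := gal_L0 H.geo.normal
  have : Algebra.IsAlgebraic (L0 E K0 (U := U)) U := inferInstance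
  obtain ⟨b, hb⟩ := Pool.Agent.TOW.below59 (N := L0 E K0 (U := U)) Q
  refine ⟨b, pole_bpl45 hℓ H hu fun hmem => ?_, hb⟩
  exact hQ (hN (inL0 (E := E) (U := U) u).2)
    ((hb _ (inL0 (E := E) (U := U) u).2 (hN (inL0 (E := E) (U := U) u).2)).1 hmem)

/-- **BLOCK RCH, part 3.** -/
theorem rch3 (hℓ : ℓ.Prime) (H : HypL E ℓ x f r) {c : k} {Φ : (E ≃ₐ[k] E) →* (U ≃+* U)}
    (A : Act (K0 := K0) ℓ r c Φ) {b : Place E (L0 E K0 (U := U))}
    (hb : BPl ℓ (Polynomial.aeval x f) b) (hΦ : ∀ g : E ≃ₐ[k] E, Moves (Φ g) _ b b) :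
    ∃ u : K0, IsRatBr ℓ x f u ∧ ∀ (N : IntermediateField E U) (Q : Place E N), OverPl b Q →
      PoleAt u Q := by
  have hcl : IsAlgClosed E := H.geo.clE
  have halg : Algebra.IsAlgebraic k E := H.geo.algE
  have hclo : IsAlgClosure k E := ⟨hcl, halg⟩
  have hnorm : Normal k E := IsAlgClosure.normal k E
  have hgal : IsGalois k E := ⟨⟩
  have hr : PD.RatPl (k := k) x b := by
    rcases PD.Line.cases_vl (hypL' H) b with h | ⟨e, h⟩
    · exact Or.inl h
    · have h1 : e ∈ (⊥ : IntermediateField k E) :=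
        (InfiniteGalois.mem_bot_iff_fixed e).2 fun g => (h.moves A g (hΦ g)).val_unique h
      obtain ⟨a, rfl⟩ := IntermediateField.mem_bot.1 h1
      exact Or.inr ⟨a, h⟩
  obtain ⟨u, h1, -, h2⟩ := exists_pole28 hℓ H hb hr
  exact ⟨u, h1, h2⟩

end

end Pool.Agent.PRL
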