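import Pool.Agent.Helper45.PL.RCH
import Pool.Agent.Helper88.PL.TOWU

/-!
# Project PL, block ONEF: the theorem for the line
-/

set_option autoImplicit false
set_option linter.unusedSectionVars false

namespace Pool.Agent.PRL

open VC IntermediateField NumberField IsDedekindDomain Pool.Agent.SC
open Filter Topology
open Pool.Agent.L (L0 MM)
open Pool.Agent.LN (Geo Act)
open Pool.Agent.M (Moves OverPl inL0)
open Pool.Agent.ML (HasMu BPl)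
open Pool.Agent.TOW (Au AuE)
open Pool.Agent.PDL (HypL YL PoleAt IsRatBr IsBr numBr Third gal_L0 L0_le_MM L0_le_YL MM_le_YL
  comm_YL pow_fix_YL lvl_YL rare_mono45)

/-- the numerical condition -/
theorem num45 {n ℓ : ℕ} (hℓ : ℓ.Prime) (h2 : ℓ ≠ 2) (h3 : 3 ≤ n) (h4 : ℓ = 3 → 4 ≤ n) :
    n * ℓ ^ 2 < ℓ ^ n := by
  have hℓ3 : 3 ≤ ℓ := by
    have := hℓ.two_le
    omega
  have key : ∀ j : ℕ, (j + 4) * ℓ ^ 2 < ℓ ^ (j + 4) := by
    intro j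
    induction j with
    | zero =>
      have h5 : ℓ ^ (0 + 4) = ℓ ^ 2 * ℓ ^ 2 := by ring
      rw [h5]
      refine Nat.mul_lt_mul_of_pos_right ?_ (by positivity)
      nlinarith
    | succ j ih =>
      have h5 : ℓ ^ (j + 1 + 4) = ℓ * ℓ ^ (j + 4) := by ring
      rw [h5]
      have h6 : (j + 1 + 4) * ℓ ^ 2 ≤ 3 * ((j + 4) * ℓ ^ 2) := by nlinarith
      have h7 : 3 * ((j + 4) * ℓ ^ 2) ≤ ℓ * ((j + 4) * ℓ ^ 2) := Nat.mul_le_mul_right _ hℓ3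
      have h8 : ℓ * ((j + 4) * ℓ ^ 2) < ℓ * ℓ ^ (j + 4) := Nat.mul_lt_mul_of_pos_left ih (by omega)
      omega
  rcases h3.lt_or_eq with h | h
  · obtain ⟨j, rfl⟩ := Nat.exists_eq_add_of_le (show 4 ≤ n by omega)
    rw [add_comm 4 j]
    exact key j
  · subst h
    have h5 : ℓ ≠ 3 := fun h => by have := h4 h; omega
    have h6 : ℓ ^ 3 = ℓ * ℓ ^ 2 := by ring
    rw [h6]
    exact Nat.mul_lt_mul_of_pos_right (by omega) (by positivity)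

section

variable {k K0 E U : Type} [Field k] [NumberField k] [Field K0] [Field E] [Field U]
  [Algebra k K0] [Algebra k E] [Algebra E U] [Algebra K0 U] [Algebra k U] [IsScalarTower k E U]
  [IsScalarTower k K0 U] {ℓ : ℕ} {x : K0} {f : Polynomial k} {r : U}

/-- the automorphism which fixes a place fixes the places below -/
theorem moves_below45 {N N' : IntermediateField E U} (hN : N ≤ N') {T : U ≃+* U}
    {b : Place E N} {Q : Place E N'} (hb : OverPl b Q) (hT : Moves T N' Q Q) :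
    Moves T N b b := fun z hz hz' =>
  ((hb z hz (hN hz)).trans (hT z (hN hz) (hN hz'))).trans (hb _ hz' (hN hz')).symm

theorem over_below45 {L N N' : IntermediateField E U} (hN : N ≤ N')
    {b : Place E L} {Q : Place E N} {Q' : Place E N'} (hb : OverPl b Q')
    (hQ : OverPl Q Q') : OverPl b Q := fun z hz hz' =>
  (hb z hz (hN hz')).trans (hQ z hz' (hN hz')).symm

theorem abE_YL45 (hℓ : ℓ.Prime) (H : HypL E ℓ x f r) : AbE E K0 ℓ (YL E K0 ℓ (U := U)) :=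
  have := H.geo.clE
  ⟨fun _ _ ha hb => comm_YL hℓ.pos ha hb, fun _ ha => pow_fix_YL hℓ.pos ha⟩

theorem yl_le_TT45 (m : ℕ) : YL E K0 ℓ (U := U) ≤ TT E K0 r ℓ (m + 1) := by
  refine IntermediateField.adjoin_le_iff.2 ?_
  rintro w (hw | hw)
  · exact L0_le_TT88 (m + 1) hw
  · exact IntermediateField.subset_adjoin _ _ (Or.inr (L0_le_TT88 m hw))

theorem rare_YL45 (hOne : PDL.StmtOneA) (hℓ : ℓ.Prime) (hℓ2 : ℓ ≠ 2) (hμ : HasMu k ℓ)
    (H : HypL E ℓ x f r) (hbr : ∃ u : K0, IsRatBr ℓ x f u) (h3 : 3 ≤ numBr k E ℓ f)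
    (h4 : ℓ = 3 → 4 ≤ numBr k E ℓ f) (hT : Third k E ℓ f) :
    PD.Rare ℓ (fun c : k => ∃ Φ : (E ≃ₐ[k] E) →* (U ≃+* U), Act (K0 := K0) ℓ r c Φ ∧
      ¬ FixB E K0 ℓ (Polynomial.aeval x f) (YL E K0 ℓ (U := U)) Φ) := by
  refine rare_mono45 (hOne k K0 E U ℓ x f r hℓ hμ H hbr (num45 hℓ hℓ2 h3 h4) hT
    fun h => absurd h hℓ2) ?_
  rintro c hc ⟨Φ, A, hno⟩
  refine ⟨Φ, A, ?_⟩
  rintro ⟨u, hu, Q, hQ, hm⟩
  obtain ⟨b, hb, hbQ⟩ := rch2 hℓ H hu L0_le_YL hQ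
  exact hno ⟨b, Q, hb, hbQ, hm⟩

end

/-- **BLOCK ONEF.** -/
theorem oneF (hPLF : StmtPLF) (hRCH : StmtRCH) (hOne : PDL.StmtOneA) : StmtOneF := by
  intro k K0 E U _ _ _ _ _ _ _ _ _ _ _ _ ℓ x f r hℓ hℓ2 hμ H hbr h3 h4 hT m
  have hF := (hRCH k K0 E U ℓ x f r hℓ hℓ2 hμ H hbr h3 h4).1
  have hcU : CharZero U := H.chU
  have hL := tOWU k K0 E U ℓ _ r hℓ H.geo (m + 1)
  refine rare_mono45 (hPLF k K0 E U ℓ _ r hℓ hℓ2 hμ H.geo (YL E K0 ℓ (U := U))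
    (lvl_YL H hℓ hbr) (MM_le_YL H.geo.rpow) (abE_YL45 hℓ H) hF
    (rare_YL45 hOne hℓ hℓ2 hμ H hbr h3 h4 hT) (TT E K0 r ℓ (m + 1)) hL.1 (yl_le_TT45 m) hL.2.2) ?_
  rintro c hc ⟨Φ, A, hno⟩
  refine ⟨Φ, A, ?_⟩
  rintro ⟨b, Q, hb, hbQ, hm⟩
  apply hno
  have hle : TT E K0 r ℓ m ≤ TT E K0 r ℓ (m + 1) := fun z hz =>
    IntermediateField.subset_adjoin _ _ (Or.inl hz)
  have : IsGalois (L0 E K0 (U := U)) U := gal_L0 H.geo.normal
  have h5 : Algebra.IsAlgebraic (TT E K0 r ℓ m) U := by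
    have h6 : Algebra.IsAlgebraic (L0 E K0 (U := U)) U := inferInstance
    let _ : Algebra (L0 E K0 (U := U)) (TT E K0 r ℓ m) :=
      (IntermediateField.inclusion (L0_le_TT88 m)).toRingHom.toAlgebra
    have : IsScalarTower (L0 E K0 (U := U)) (TT E K0 r ℓ m) U :=
      IsScalarTower.of_algebraMap_eq fun _ => rfl
    exact Algebra.IsAlgebraic.tower_top (K := L0 E K0 (U := U)) _
  obtain ⟨Q₀, hQ₀⟩ := Pool.Agent.TOW.below59 (N := TT E K0 r ℓ m) Q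
  obtain ⟨u, hu, hu'⟩ := rch3 hℓ H A hb fun g => moves_below45 (L0_le_TT88 (m + 1)) hbQ (hm g)
  exact ⟨u, hu, Q₀, hu' _ Q₀ (over_below45 hle hbQ hQ₀), fun g => moves_below45 hle hQ₀ (hm g)⟩

end Pool.Agent.PRL
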