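import Pool.Agent.Helper45.PL.UNL
import Pool.Agent.Helper45.PD.OneA
import Pool.Agent.Helper45.TW.SAe

/-!
# Project PL, block B8: the induction
-/

set_option autoImplicit false
set_option linter.unusedSectionVars false

namespace Pool.Agent.PRL

open VC IntermediateField NumberField IsDedekindDomain Pool.Agent.SC
open Filter Topology
open Pool.Agent.L (L0 MM)
open Pool.Agent.LN (Geo Act)
open Pool.Agent.M (Moves OverPl inL0 moves_comp moves_over moves_pow)
open Pool.Agent.ML (HasMu BPl)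
open Pool.Agent.TOW (Au AuE above59 over_trans')
open Pool.Agent.PDL (L0_le_MM K_mem au_L0 rare_mono45 eig_root act_au act_au_inv auE_pow)

/-! ## Rare properties -/

section rare

variable {k : Type} [Field k] [NumberField k] {ℓ : ℕ}

theorem rare_false45 : PD.Rare (k := k) ℓ (fun _ => False) := by
  intro ε hε
  filter_upwards with X T _ h
  have h1 : T = ∅ := by
    rw [Finset.eq_empty_iff_forall_notMem]
    exact fun c hc => (h c hc).2.2
  rw [h1, Finset.card_empty, Nat.cast_zero]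
  exact mul_nonneg hε.le (mul_nonneg (Nat.cast_nonneg X)
    (Real.rpow_nonneg (Real.log_natCast_nonneg X) _))

theorem rare_or45 {P P' : k → Prop} (h : PD.Rare ℓ P) (h' : PD.Rare ℓ P') :
    PD.Rare ℓ (fun c => P c ∨ P' c) := by
  classical
  intro ε hε
  filter_upwards [h (ε / 2) (by positivity), h' (ε / 2) (by positivity)] with X h1 h2 T hT hP
  have h3 := h1 (T.filter P) (fun c hc c' hc' => hT c (Finset.mem_filter.1 hc).1 c'
    (Finset.mem_filter.1 hc').1) (fun c hc => ⟨(hP c (Finset.mem_filter.1 hc).1).1,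
      (hP c (Finset.mem_filter.1 hc).1).2.1, (Finset.mem_filter.1 hc).2⟩)
  have h4 := h2 (T.filter P') (fun c hc c' hc' => hT c (Finset.mem_filter.1 hc).1 c'
    (Finset.mem_filter.1 hc').1) (fun c hc => ⟨(hP c (Finset.mem_filter.1 hc).1).1,
      (hP c (Finset.mem_filter.1 hc).1).2.1, (Finset.mem_filter.1 hc).2⟩)
  have h5 : T ⊆ T.filter P ∪ T.filter P' := by
    intro c hc
    rw [Finset.mem_union, Finset.mem_filter, Finset.mem_filter]
    exact (hP c hc).2.2.imp (fun h => ⟨hc, h⟩) fun h => ⟨hc, h⟩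
  have h6 : (T.card : ℝ) ≤ (T.filter P).card + (T.filter P').card := by
    exact_mod_cast (Finset.card_le_card h5).trans (Finset.card_union_le _ _)
  linarith

theorem rare_fin45 {ι : Type} {A : Set ι} (hA : A.Finite) {P : ι → k → Prop}
    (h : ∀ i ∈ A, PD.Rare ℓ (P i)) : PD.Rare ℓ (fun c => ∃ i ∈ A, P i c) := by
  induction A, hA using Set.Finite.induction_on with
  | empty =>
    refine rare_mono45 rare_false45 ?_
    rintro c - ⟨i, hi, -⟩
    exact hi
  | insert ha hA ih =>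
    rename_i a A
    refine rare_mono45 (rare_or45 (h a (Set.mem_insert _ _))
      (ih fun i hi => h i (Set.mem_insert_of_mem _ hi))) ?_
    rintro c - ⟨i, hi, hP⟩
    rcases Set.mem_insert_iff.1 hi with rfl | hi
    · exact Or.inl hP
    · exact Or.inr ⟨i, hi, hP⟩

end rare

/-! ## Levels -/

section lev

variable {E K0 U : Type} [Field E] [Field K0] [Field U] [Algebra E U] [Algebra K0 U]

theorem IsPL.mono {ℓ : ℕ} {N N' : IntermediateField E U} (h : N' ≤ N) (hN : IsPL E K0 ℓ N) :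
    IsPL E K0 ℓ N' := fun a ha => by
  obtain ⟨j, hj⟩ := hN a ha
  exact ⟨j, fun z hz => hj z (h hz)⟩

theorem UniP.mono {k : Type} [Field k] [Algebra k E] {ℓ : ℕ} {S : Subgroup (E ≃ₐ[k] E)}
    {N N' : IntermediateField E U} (h : N' ≤ N) (hN : UniP K0 ℓ S N) : UniP K0 ℓ S N' :=
  fun T hT hS => by
    obtain ⟨j, hj⟩ := hN T hT hS
    exact ⟨j, fun a ha z hz => hj a ha z (h hz)⟩

theorem lvl_au {N : IntermediateField E U} (hN : TW.Lvl E K0 N) {T : U ≃+* U} (hT : Au E K0 T) :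
    ∀ z ∈ N, T z ∈ N := hN.stab T hT.fixK hT.presE

theorem lvl_L0 {N : IntermediateField E U} (hN : TW.Lvl E K0 N) : L0 E K0 (U := U) ≤ N := by
  refine IntermediateField.adjoin_le_iff.2 ?_
  rintro _ ⟨x, rfl⟩
  exact hN.le x

/-- a function field is finite over a smaller function field -/
theorem fin_ext45 {L N : IntermediateField E U} (hL : IsFunctionField E L)
    (hN : IsFunctionField E N) (h : L ≤ N) :
    FiniteDimensional L (IntermediateField.extendScalars h) := by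
  obtain ⟨t, ht, -⟩ := hL
  let aLN : Algebra L N := (IntermediateField.inclusion h).toRingHom.toAlgebra
  have sLN : IsScalarTower E L N := IsScalarTower.of_algebraMap_eq fun x => rfl
  have ht' : Transcendental E (algebraMap L N t) :=
    (transcendental_algebraMap_iff (algebraMap L N).injective).mpr ht
  have h1 := hN.finiteDimensional ht'
  have h2 : FiniteDimensional E⟮t⟯ N := finite_adjoin_image t
  have h3 : Module.Finite L N := Module.Finite.of_restrictScalars_finite E⟮t⟯ L N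
  exact h3

theorem finrank_lt45 {L N N' : IntermediateField E U} (hN : IsFunctionField E N)
    (hL : IsFunctionField E L) (h' : L ≤ N') (h : L ≤ N) (hle : N' ≤ N) (hne : N' ≠ N) :
    Module.finrank L (IntermediateField.extendScalars h') <
      Module.finrank L (IntermediateField.extendScalars h) := by
  have hfin := fin_ext45 hL hN h
  by_contra hcon
  rw [not_lt] at hcon
  have hle' : IntermediateField.extendScalars h' ≤ IntermediateField.extendScalars h := fun x hx =>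
    hle hx
  have h1 := IntermediateField.eq_of_le_of_finrank_le hle' hcon
  apply hne
  apply le_antisymm hle
  intro x hx
  have h2 : x ∈ IntermediateField.extendScalars h := hx
  rw [← h1] at h2
  exact h2

/-- powers of a product of two automorphisms which commute on a level -/
theorem mul_pow45 {N : IntermediateField E U} {x y : U ≃+* U} (hx : ∀ v ∈ N, x v ∈ N)
    (hy : ∀ v ∈ N, y v ∈ N) (h : ∀ v ∈ N, x (y v) = y (x v)) (n : ℕ) :
    ∀ v ∈ N, ((x * y) ^ n) v = (x ^ n) ((y ^ n) v) := by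
  have hyn : ∀ (n : ℕ), ∀ v ∈ N, (y ^ n) v ∈ N := by
    intro n
    induction n with
    | zero => exact fun v hv => hv
    | succ n ih =>
      intro v hv
      rw [pow_succ]
      exact ih (y v) (hy v hv)
  have hc : ∀ (n : ℕ), ∀ v ∈ N, x ((y ^ n) v) = (y ^ n) (x v) := by
    intro n
    induction n with
    | zero => exact fun v _ => rfl
    | succ n ih =>
      intro v hv
      rw [pow_succ]
      show x ((y ^ n) (y v)) = (y ^ n) (y (x v))
      rw [ih (y v) (hy v hv), h v hv]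
  induction n with
  | zero => exact fun v _ => rfl
  | succ n ih =>
    intro v hv
    rw [pow_succ, pow_succ, pow_succ]
    show ((x * y) ^ n) (x (y v)) = (x ^ n) (x ((y ^ n) (y v)))
    rw [ih _ (hx _ (hy v hv)), ← hc n (y v) (hy v hv)]

end lev

section main

variable {k K0 E U : Type} [Field k] [NumberField k] [Field K0] [Field E] [Field U]
  [Algebra k K0] [Algebra k E] [Algebra E U] [Algebra K0 U] [Algebra k U] [IsScalarTower k E U]
  [IsScalarTower k K0 U] {ℓ : ℕ} {h : K0} {r : U}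

/-- finitely many branch places -/
theorem bpl_fin (geo : Geo k K0 E U ℓ h r) (hℓ : ℓ.Prime) :
    {b : Place E (L0 E K0 (U := U)) | BPl ℓ h b}.Finite := by
  have hcl : IsAlgClosed E := geo.clE
  have hh : (inL0 h : L0 E K0 (U := U)) ≠ 0 := by
    intro h0
    have h1 : algebraMap K0 U h = 0 := congrArg Subtype.val h0
    have h2 := geo.rpow
    rw [h1] at h2
    refine geo.rnot 1 one_pos hℓ.one_lt ?_
    rw [pow_one, pow_eq_zero_iff hℓ.ne_zero |>.1 h2]
    exact zero_mem _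
  refine (FF.finite_support_ord geo.ff hh).subset ?_
  intro b hb h0
  apply hb
  rw [h0]
  exact dvd_zero _

theorem geo_r0 (geo : Geo k K0 E U ℓ h r) (hℓ : ℓ.Prime) : r ≠ 0 := by
  rintro rfl
  refine geo.rnot 1 one_pos hℓ.one_lt ?_
  rw [pow_one]
  exact zero_mem _

theorem auE_sub {K' : IntermediateField k U} (hK0 : ∀ y : K0, algebraMap K0 U y ∈ K')
    {a : U ≃+* U} (ha : AuE E K' a) : AuE E K0 a :=
  ⟨fun y => ha.fixK ⟨_, hK0 y⟩, ha.fixE⟩

theorem au_sub {K' : IntermediateField k U} (hK0 : ∀ y : K0, algebraMap K0 U y ∈ K')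
    {a : U ≃+* U} (ha : Au E K' a) : Au E K0 a :=
  ⟨fun y => ha.fixK ⟨_, hK0 y⟩, ha.presE⟩

/-- the group of `N` over the fixed field of the inertia group of a place `Q` of `N₁` -/
theorem abel45 (geo : Geo k K0 E U ℓ h r) (hℓ : ℓ.Prime) (hPXL : StmtPXL)
    {N N₁ : IntermediateField E U} (hN : TW.Lvl E K0 N) (hMN₁ : MM E K0 r ≤ N₁)
    (hN₁N : N₁ ≤ N)
    (hZ : ∀ z : U ≃+* U, AuE E K0 z → (∀ y ∈ N₁, z y = y) → (∀ y ∈ N, (z ^ ℓ) y = y) ∧
      ∀ a : U ≃+* U, AuE E K0 a → ∀ y ∈ N, z (a y) = a (z y))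
    {b₀ : Place E (L0 E K0 (U := U))} (hb₀ : BPl ℓ h b₀) {Q : Place E N₁} (hQ : OverPl b₀ Q)
    {K' : IntermediateField k U} (hK0 : ∀ y : K0, algebraMap K0 U y ∈ K')
    (hMM : MM E K' r = N₁)
    (hfix : ∀ T : U ≃+* U, AuE E K0 T → Moves T N₁ Q Q → ∀ z ∈ L0 E K' (U := U), T z = z) :
    (∀ a b : U ≃+* U, AuE E K' a → AuE E K' b → ∀ z ∈ N, a (b z) = b (a z)) ∧
    ∀ a : U ≃+* U, AuE E K' a → ∀ z ∈ N, (a ^ ℓ) z = z := by
  have hcl : IsAlgClosed E := geo.clE
  have hLN₁ : L0 E K0 (U := U) ≤ N₁ := L0_le_MM.trans hMN₁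
  have hr0 := geo_r0 geo hℓ
  have : NeZero ℓ := ⟨hℓ.ne_zero⟩
  obtain ⟨Q₂, hQ₂⟩ := above59 hN₁N Q
  have hbQ₂ : OverPl b₀ Q₂ := over_trans' hLN₁ hQ hQ₂
  obtain ⟨htriv, hbr⟩ := hPXL k K0 E U ℓ h r hℓ geo N hN (hMN₁.trans hN₁N)
  obtain ⟨-, -, -, hin⟩ := hbr b₀ hb₀
  obtain ⟨ι, ζ, hι, hζ, hιr, hιQ⟩ := hin Q₂ hbQ₂
  have hιQ₁ : Moves ι N₁ Q Q := moves_over hN₁N hQ₂ hQ₂ hιQ
  have hι' : AuE E K' ι := ⟨fun y => hfix ι hι hιQ₁ _ (K_mem y), hι.fixE⟩
  have hιpow : ∀ i : ℕ, (ι ^ i) r = algebraMap E U (ζ ^ i) * r := by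
    intro i
    induction i with
    | zero => simp
    | succ i ih =>
      rw [pow_succ']
      show ι ((ι ^ i) r) = _
      rw [ih, map_mul, hι.fixE, hιr, pow_succ, map_mul, mul_assoc]
  have hιℓ : ∀ z ∈ N, (ι ^ ℓ) z = z := by
    refine htriv (ι ^ ℓ) Q₂ (auE_pow hι ℓ) ?_ (moves_pow (lvl_au hN hι.au) hιQ ℓ)
    rw [hιpow, hζ.pow_eq_one, map_one, one_mul]
  have hdec : ∀ a : U ≃+* U, AuE E K' a → ∃ (i : ℕ) (z : U ≃+* U), AuE E K0 z ∧
      (∀ y ∈ N₁, z y = y) ∧ a = ι ^ i * z := by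
    intro a ha
    have haE := auE_sub hK0 ha
    obtain ⟨ω, hω, har⟩ := eig_root (E := E) hℓ.pos hr0 (T := a) (by
      rw [geo.rpow]
      exact haE.fixK _)
    obtain ⟨i, -, hi⟩ := hζ.eq_pow_of_pow_eq_one hω
    refine ⟨i, (ι ^ i)⁻¹ * a, (auE_pow hι i).inv.mul haE, ?_, (mul_inv_cancel_left _ _).symm⟩
    rw [← hMM]
    refine ((auE_pow hι' i).inv.mul ha).onMM ?_
    show (ι ^ i)⁻¹ (a r) = r
    rw [har, ← hi, ← hιpow]
    exact (ι ^ i).symm_apply_apply r
  have hst : ∀ a : U ≃+* U, AuE E K0 a → ∀ z ∈ N, a z ∈ N := fun a ha => lvl_au hN ha.au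
  constructor
  · intro a b ha hb y hy
    obtain ⟨i, z, hz, hz1, rfl⟩ := hdec a ha
    obtain ⟨j, z', hz', hz1', rfl⟩ := hdec b hb
    have hzc := (hZ z hz hz1).2
    have hzc' := (hZ z' hz' hz1').2
    show (ι ^ i) (z ((ι ^ j) (z' y))) = (ι ^ j) (z' ((ι ^ i) (z y)))
    rw [hzc _ (auE_pow hι j) _ (hst z' hz' y hy), hzc' _ (auE_pow hι i) _ (hst z hz y hy),
      hzc z' hz' y hy]
    have h1 : ι ^ i * ι ^ j = ι ^ j * ι ^ i := (Commute.refl ι).pow_pow i j
    exact congrArg (fun T : U ≃+* U => T (z' (z y))) h1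
  · intro a ha y hy
    obtain ⟨i, z, hz, hz1, rfl⟩ := hdec a ha
    obtain ⟨hzℓ, hzc⟩ := hZ z hz hz1
    rw [mul_pow45 (hst _ (auE_pow hι i)) (hst z hz)
      (fun v hv => (hzc _ (auE_pow hι i) v hv).symm) ℓ y hy, hzℓ y hy, ← pow_mul, mul_comm i ℓ,
      pow_mul]
    have h2 : ∀ (n : ℕ), ((ι ^ ℓ) ^ n) y = y := by
      intro n
      induction n with
      | zero => rfl
      | succ n ih =>
        rw [pow_succ]
        show ((ι ^ ℓ) ^ n) ((ι ^ ℓ) y) = y
        rw [hιℓ y hy, ih]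
    exact h2 i

end main

/-- **BLOCK B8.** -/
theorem pL_of (hLVL : PD.StmtLVL) (hPXL : StmtPXL) (hCH : StmtCHAIN) (hCOM : StmtCOMS)
    (hKG : StmtKGL) (hRS : StmtRSK) : StmtPL := by
  intro k K0 E U _ _ _ _ _ _ _ _ _ _ _ _ ℓ h r hℓ hℓ2 hμ geo B hB hMB hBab hB4 hBr S hS
  have hcl : IsAlgClosed E := geo.clE
  have key : ∀ n : ℕ, ∀ N : IntermediateField E U, TW.Lvl E K0 N → ∀ hBN : B ≤ N,
      IsPL E K0 ℓ N → UniP K0 ℓ S N → Module.finrank (L0 E K0 (U := U))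
        (IntermediateField.extendScalars (L0_le_MM.trans (hMB.trans hBN))) = n →
      PD.Rare ℓ (NoFix (k := k) ℓ h r N) := by
    intro n
    induction n using Nat.strong_induction_on with
    | _ n ih =>
    intro N hN hBN hPLN hUN hn
    by_cases hBN' : B = N
    · rw [← hBN']
      exact hBr
    obtain ⟨N₁, hN₁, hBN₁, hN₁N, hne, hZ⟩ := hCH k K0 E U ℓ h r hℓ geo S hS.normal B N hB hMB hN hBN
      hBN' hPLN hUN
    have hMN₁ : MM E K0 r ≤ N₁ := hMB.trans hBN₁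
    have hLN₁ : L0 E K0 (U := U) ≤ N₁ := L0_le_MM.trans hMN₁
    have hlt : Module.finrank (L0 E K0 (U := U))
        (IntermediateField.extendScalars (L0_le_MM.trans (hMB.trans hBN₁))) < n := by
      rw [← hn]
      exact finrank_lt45 hN.ff geo.ff _ _ hN₁N hne
    have hN₁r := ih _ hlt N₁ hN₁ hBN₁ (hPLN.mono hN₁N) (hUN.mono hN₁N) rfl
    -- finitely many places
    obtain ⟨htriv₁, hbr₁⟩ := hPXL k K0 E U ℓ h r hℓ geo N₁ hN₁ hMN₁
    have hfinQ : {Q : Place E N₁ | ∃ b, BPl ℓ h b ∧ OverPl b Q}.Finite := by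
      have h1 : {Q : Place E N₁ | ∃ b, BPl ℓ h b ∧ OverPl b Q} =
          ⋃ b ∈ {b : Place E (L0 E K0 (U := U)) | BPl ℓ h b}, {Q : Place E N₁ | OverPl b Q} := by
        ext Q
        simp only [Set.mem_ofPred_eq, Set.mem_iUnion, exists_prop]
      rw [h1]
      exact (bpl_fin geo hℓ).biUnion fun b hb => (hbr₁ b hb).2.1
    -- one place
    have hone : ∀ Q ∈ {Q : Place E N₁ | ∃ b, BPl ℓ h b ∧ OverPl b Q},
        PD.Rare ℓ (fun c : k => ∃ Φ : (E ≃ₐ[k] E) →* (U ≃+* U), Act (K0 := K0) ℓ r c Φ ∧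
          (∀ g : E ≃ₐ[k] E, Moves (Φ g) N₁ Q Q) ∧
          ¬ ∃ b : Place E (L0 E K0 (U := U)), BPl ℓ h b ∧ ∃ Q : Place E N, OverPl b Q ∧
            ∀ g : E ≃ₐ[k] E, Moves (Φ g) N Q Q) := by
      rintro Q ⟨b₀, hb₀, hQ⟩
      by_cases hex : ∃ (c₀ : k) (Φ₀ : (E ≃ₐ[k] E) →* (U ≃+* U)), c₀ ≠ 0 ∧
          Act (K0 := K0) ℓ r c₀ Φ₀ ∧ ∀ g : E ≃ₐ[k] E, Moves (Φ₀ g) N₁ Q Q
      swap
      · refine rare_mono45 rare_false45 ?_
        rintro c hc ⟨Φ, A, hm, -⟩
        exact hex ⟨c, Φ, hc, A, hm⟩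
      obtain ⟨c₀, Φ₀, hc₀, A₀, hm₀⟩ := hex
      obtain ⟨hK0, hKG'⟩ := hKG k K0 E U ℓ h r hℓ hμ geo N₁ hN₁ hMN₁ b₀ Q hb₀ hQ c₀ Φ₀ hc₀ A₀ hm₀
      obtain ⟨h', hh'⟩ : ∃ h' : KP k K0 Q, (h' : U) = algebraMap K0 U h := ⟨⟨_, hK0 h⟩, rfl⟩
      obtain ⟨geo', hMM, hfix, -⟩ := hKG' h' hh'
      obtain ⟨R', hR', hR''⟩ := hRS k K0 E U ℓ h r hℓ hℓ2 hμ geo B N₁ hB hMB hBab hB4 hN₁ hBN₁
        (hPLN.mono hN₁N) b₀ Q hb₀ hQ c₀ Φ₀ hc₀ A₀ hm₀ h' hh'
      have hLvl' : TW.Lvl E (KP k K0 Q) N :=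
        { ff := hN.ff
          le := fun y => hN₁N y.2.1
          stab := fun T hT hE => hN.stab T (fun y => hT ⟨_, hK0 y⟩) hE }
      have hMM' : MM E (KP k K0 Q) r ≤ N := hMM.le.trans hN₁N
      obtain ⟨hab, hex⟩ := abel45 geo hℓ hPXL hN hMN₁ hN₁N
        (fun z hz hz1 => ⟨(hZ z hz hz1).1, (hZ z hz hz1).2.1⟩) hb₀ hQ hK0 hMM hfix
      have hcom : ∀ T a : U ≃+* U, Au E (KP k K0 Q) T → InS S T → AuE E (KP k K0 Q) a → a r = r →
          ∀ z ∈ N, T (a z) = a (T z) := by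
        intro T a hT hTS ha har z hz
        have h1 : ∀ y ∈ N₁, a y = y := by
          rw [← hMM]
          exact ha.onMM har
        exact (hZ a (auE_sub hK0 ha) h1).2.2 T (au_sub hK0 hT) hTS z hz
      refine rare_mono45 (hLVL k (KP k K0 Q) E U ℓ h' r hℓ hμ geo' R' hR' N hLvl' hMM' ?_ ?_) ?_
      · intro a b ha hb y hy
        have h1 : AuE E (KP k K0 Q) (a : U ≃+* U) := ⟨fun y => ha _ (K_mem y), fun e => a.commutes e⟩
        have h2 : AuE E (KP k K0 Q) (b : U ≃+* U) := ⟨fun y => hb _ (K_mem y), fun e => b.commutes e⟩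
        exact hab _ _ h1 h2 y hy
      · intro a ha z hz
        have h1 : AuE E (KP k K0 Q) (a : U ≃+* U) := ⟨fun y => ha _ (K_mem y), fun e => a.commutes e⟩
        have h3 : ∀ (n : ℕ) (z : U), (a ^ n) z = ((a : U ≃+* U) ^ n) z := by
          intro n
          induction n with
          | zero => intro z; rfl
          | succ n ih =>
            intro z
            rw [pow_succ, pow_succ]
            show (a ^ n) (a z) = ((a : U ≃+* U) ^ n) ((a : U ≃+* U) z)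
            rw [ih]
            rfl
        rw [h3]
        exact hex _ h1 z hz
      · rintro c hc ⟨Φ, A, hm, hno⟩
        have A' : Act (K0 := KP k K0 Q) ℓ r c Φ :=
          { const := A.const
            fixK := fun g y => y.2.2 (Φ g) (act_au A g) (hm g)
            tw := A.tw
            cont := A.cont }
        refine ⟨Φ, A', fun b' hb' => ?_⟩
        by_contra hcon
        push Not at hcon
        obtain ⟨Q', hQ', hQm⟩ := hCOM k (KP k K0 Q) E U ℓ h' r hℓ hμ geo' S hS N hLvl' hMM' hab hex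
          hcom b' (hR'.br b' hb') c Φ hc A' hcon
        obtain ⟨b, hb, hbb⟩ := hR'' b' hb'
        refine hno ⟨b, hb, Q', ?_, hQm⟩
        have h1 : L0 E K0 (U := U) ≤ L0 E (KP k K0 Q) (U := U) := by
          refine IntermediateField.adjoin_le_iff.2 ?_
          rintro _ ⟨x, rfl⟩
          exact K_mem (⟨_, hK0 x⟩ : KP k K0 Q)
        exact over_trans' h1 hbb hQ'
    refine rare_mono45 (rare_or45 hN₁r (rare_fin45 hfinQ hone)) ?_
    rintro c - ⟨Φ, A, hno⟩
    by_cases hex : ∃ b : Place E (L0 E K0 (U := U)), BPl ℓ h b ∧ ∃ Q : Place E N₁, OverPl b Q ∧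
        ∀ g : E ≃ₐ[k] E, Moves (Φ g) N₁ Q Q
    · obtain ⟨b, hb, Q, hQ, hm⟩ := hex
      exact Or.inr ⟨Q, ⟨b, hb, hQ⟩, Φ, A, hm, hno⟩
    · exact Or.inl ⟨Φ, A, hex⟩
  intro N hN hBN hPLN hUN
  exact key _ N hN hBN hPLN hUN rfl

end Pool.Agent.PRL
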