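import Pool.Agent.Helper45.PL.Defs
import Pool.Agent.Helper45.PD.Coord2
import Pool.Agent.Helper45.PD.COML

/-!
# Project PL, block B13: `UniP` for the level `YL`
-/

set_option autoImplicit false
set_option linter.unusedSectionVars false

namespace Pool.Agent.PRL

open VC IntermediateField NumberField IsDedekindDomain Pool.Agent.SC
open Pool.Agent.L (L0 MM)
open Pool.Agent.LN (Geo Act)
open Pool.Agent.M (Moves OverPl inL0)
open Pool.Agent.ML (HasMu BPl)
open Pool.Agent.TOW (Au AuE)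
open Pool.Agent.PDL

section geo

variable {k K0 E U : Type} [Field k] [NumberField k] [Field K0] [Field E] [Field U]
  [Algebra k K0] [Algebra k E] [Algebra E U] [Algebra K0 U] [Algebra k U] [IsScalarTower k E U]
  [IsScalarTower k K0 U] {ℓ : ℕ} {x : K0} {f : Polynomial k} {r : U}

theorem au_pow {T : U ≃+* U} (hT : Au E K0 T) (n : ℕ) : Au E K0 (T ^ n) := by
  induction n with
  | zero => exact (AuE.one (E := E) (K0 := K0)).au
  | succ n ih => rw [pow_succ]; exact ih.mul hT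

theorem ind_pow {T : U ≃+* U} {σ : E ≃ₐ[k] E}
    (h : ∀ e : E, T (algebraMap E U e) = algebraMap E U (σ e)) (n : ℕ) (e : E) :
    (T ^ n) (algebraMap E U e) = algebraMap E U ((σ ^ n) e) := by
  induction n generalizing e with
  | zero => rfl
  | succ n ih =>
    rw [pow_succ, pow_succ]
    show (T ^ n) (T (algebraMap E U e)) = algebraMap E U ((σ ^ n) (σ e))
    rw [h, ih]

/-- if infinity is a branch point -/
theorem comm_inf (H : HypL E ℓ x f r) (hℓ : ℓ.Prime) (hd : ¬ ℓ ∣ f.natDegree) (hμ : HasMu k ℓ)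
    {T a : U ≃+* U} (hT : Au E K0 T) {σ : E ≃ₐ[k] E}
    (hσ : ∀ e : E, T (algebraMap E U e) = algebraMap E U (σ e))
    (hfix : ∀ β ∈ RB k E ℓ f, σ β = β) (ha : AuE E K0 a) :
    ∀ z ∈ YL E K0 ℓ (U := U), T (a z) = a (T z) := by
  intro z hz
  obtain ⟨ww, hww⟩ := H.exists_ww hℓ hd
  have hcl : IsAlgClosed E := H.geo.clE
  have h1 : (T * a) z = (a * T) z := by
    refine H.agree hℓ hww (T := T * a) (T' := a * T) ?_ ?_ z hz
    · intro z hz
      show T (a z) = a (T z)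
      rw [ha.onL0 z hz, ha.onL0 _ (au_L0 hT z hz)]
    · intro β hβ
      obtain ⟨ω, hω, h2⟩ := H.act_ww hℓ hww σ (hT.fixK x) hσ hβ
      rw [hfix β hβ] at h2
      obtain ⟨ω', hω', h3⟩ := H.act_ww hℓ hww 1 (ha.fixK x) (fun e => ha.fixE e) hβ
      have h4 : (1 : E ≃ₐ[k] E) β = β := rfl
      rw [h4] at h3
      show T (a (ww β)) = a (T (ww β))
      rw [h3, h2, map_mul, map_mul, hσ, mu_fixed hμ hℓ.pos σ hω', ha.fixE, h2, h3]
      ring
  exact h1

theorem unL : StmtUNL := by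
  intro k K0 E U _ _ _ _ _ _ _ _ _ _ _ _ ℓ x f r hℓ hμ H hbr S hS T hT hTS
  obtain ⟨σ, hσS, hσ⟩ := hTS
  obtain ⟨m, hm⟩ := hS σ hσS
  refine ⟨m, fun a ha => ?_⟩
  have hT' := au_pow hT (ℓ ^ m)
  have hσ' := ind_pow hσ (ℓ ^ m)
  obtain ⟨u, ⟨-, hd⟩ | ⟨α, hα, -⟩⟩ := hbr
  · exact comm_inf H hℓ hd hμ hT' hσ' (fun β hβ => hm β (mem_RB.1 hβ)) ha
  · obtain ⟨F, s, -, hd, H', -, hF⟩ := H.coord' (E := E) hℓ hα
    refine comm_inf H' hℓ hd hμ hT' hσ' (fun β hβ => ?_) ha
    by_cases h0 : β = 0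
    · rw [h0, map_zero]
    · rw [mem_RB, hF β h0] at hβ
      have h1 := hm _ hβ
      rw [map_add, AlgEquiv.commutes, map_inv₀] at h1
      exact inv_injective (add_left_cancel h1)

end geo

end Pool.Agent.PRL
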